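import Pool.Agent.H84.S2.Tg

/-!
# MPL: minimal prime ideals and the local ring
-/

set_option autoImplicit false

namespace Pool.Agent.H77.S2

open MvPolynomial SC
open Pool.Agent.H27.LV (ge deg poleOrder canDeg)
open Pool.Agent.H84.SM (cr dt dp)
open Pool.Agent.H3.SF (Itg Bb BB Hm eu grd hes Sfc Crd Cnn Crf Prm nv)
open Pool.Agent.H84.SF Pool.Agent.H3.S2 Pool.Agent.H84.S2

section

variable {k σ : Type} [Field k]

/-- restriction to the line through `s` -/
noncomputable def rhl (s : σ → k) : MvPolynomial σ k →ₐ[k] Polynomial k :=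
  aeval (fun i => Polynomial.C (s i) * Polynomial.X)

theorem rhl_eval (s : σ → k) (f : MvPolynomial σ k) (μ : k) :
    (rhl s f).eval μ = eval (μ • s) f := by
  have h : ((Polynomial.aeval μ : Polynomial k →ₐ[k] k).comp (rhl s)) =
      (aeval (μ • s) : MvPolynomial σ k →ₐ[k] k) := by
    apply MvPolynomial.algHom_ext
    intro i
    simp only [AlgHom.comp_apply, rhl, aeval_X, map_mul, Polynomial.aeval_C, Polynomial.aeval_X,
      Pi.smul_apply, smul_eq_mul, Algebra.algebraMap_self, RingHom.id_apply]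
    ring
  have h1 := congrArg (fun g : MvPolynomial σ k →ₐ[k] k => g f) h
  simp only [AlgHom.comp_apply] at h1
  rw [Polynomial.coe_aeval_eq_eval] at h1
  rw [h1, MvPolynomial.aeval_eq_eval]

theorem mem_Lns_iff [Infinite k] (s : σ → k) (f : MvPolynomial σ k) :
    f ∈ Lns s ↔ rhl s f = 0 := by
  constructor
  · intro h
    apply Polynomial.funext
    intro μ
    rw [rhl_eval, Polynomial.eval_zero]
    exact h μ
  · intro h μ
    rw [← rhl_eval, h, Polynomial.eval_zero]

theorem Lns_prime [Infinite k] (s : σ → k) : (Lns s).IsPrime := by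
  have e : Lns s = RingHom.ker (rhl s : MvPolynomial σ k →+* Polynomial k) := by
    ext f
    rw [mem_Lns_iff, RingHom.mem_ker]
    rfl
  rw [e]
  exact RingHom.ker_isPrime _

theorem eval_smul_hom (s : σ → k) (f : MvPolynomial σ k) (d : ℕ) (hf : f.IsHomogeneous d)
    (μ : k) : eval (μ • s) f = μ ^ d * eval s f := by
  rw [eval_eq, eval_eq, Finset.mul_sum]
  refine Finset.sum_congr rfl fun c hc => ?_
  have h1 : ∑ i ∈ c.support, c i = d := by
    have h := hf (mem_support_iff.1 hc)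
    rw [← h, Finsupp.weight_apply, Finsupp.sum]
    refine Finset.sum_congr rfl fun i _ => ?_
    simp
  have h2 : ∏ i ∈ c.support, (μ • s) i ^ c i = μ ^ d * ∏ i ∈ c.support, s i ^ c i := by
    rw [← h1, ← Finset.prod_pow_eq_pow_sum, ← Finset.prod_mul_distrib]
    refine Finset.prod_congr rfl fun i _ => ?_
    rw [Pi.smul_apply, smul_eq_mul, mul_pow]
  rw [h2]
  ring

/-- the restriction of a form is a monomial -/
theorem rhl_hom [Infinite k] (s : σ → k) (f : MvPolynomial σ k) (d : ℕ) (hf : f.IsHomogeneous d) :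
    rhl s f = Polynomial.C (eval s f) * Polynomial.X ^ d := by
  apply Polynomial.funext
  intro μ
  rw [rhl_eval, eval_smul_hom s f d hf μ, Polynomial.eval_mul, Polynomial.eval_C,
    Polynomial.eval_pow, Polynomial.eval_X]
  ring

/-- the homogeneous components of the elements of `Lns s` vanish at `s` -/
theorem Lns_hom [Infinite k] (s : σ → k) (f : MvPolynomial σ k) (hf : f ∈ Lns s) (d : ℕ) :
    eval s (homogeneousComponent d f) = 0 := by
  rw [mem_Lns_iff] at hf
  by_cases hd : d ∈ Finset.range (f.totalDegree + 1)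
  · have h1 : rhl s f = ∑ i ∈ Finset.range (f.totalDegree + 1),
        Polynomial.C (eval s (homogeneousComponent i f)) * Polynomial.X ^ i := by
      conv_lhs => rw [← sum_homogeneousComponent f]
      rw [map_sum]
      exact Finset.sum_congr rfl fun i _ =>
        rhl_hom s _ i (homogeneousComponent_isHomogeneous i f)
    have h2 := congrArg (fun q => Polynomial.coeff q d) h1
    simp only [hf, Polynomial.coeff_zero, Polynomial.finsetSum_coeff,
      Polynomial.coeff_C_mul_X_pow] at h2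
    rw [Finset.sum_ite_eq, if_pos hd] at h2
    exact h2.symm
  · rw [homogeneousComponent_eq_zero, map_zero]
    simpa using hd

end

/-- the prime ideal of the local ring -/
def PI {k F σ : Type} [Field k] [Field F] [Algebra k F] (X : σ → F) (s : σ → k)
    (p : Ideal (MvPolynomial σ k)) : Ideal (Os X s) where
  carrier := {h | ∃ (d : ℕ) (a b : MvPolynomial σ k), Rep X (h : F) d a b ∧ eval s b ≠ 0 ∧ a ∈ p}
  zero_mem' := ⟨0, 0, 1, ⟨isHomogeneous_zero _ _ _, isHomogeneous_one _ _, by simp⟩, by simp,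
    p.zero_mem⟩
  add_mem' := by
    rintro z w ⟨d, a, b, ⟨ha, hb, h⟩, hs, hp⟩ ⟨d', a', b', ⟨ha', hb', h'⟩, hs', hp'⟩
    refine ⟨d + d', a * b' + b * a', b * b', ⟨(ha.mul hb').add (hb.mul ha'), hb.mul hb', ?_⟩, ?_,
      p.add_mem (p.mul_mem_right _ hp) (p.mul_mem_left _ hp')⟩
    · rw [map_mul, map_add, map_mul, map_mul, ← h, ← h']
      push_cast
      ring
    · rw [map_mul]
      exact mul_ne_zero hs hs'
  smul_mem' := by
    rintro c w ⟨d', a', b', ⟨ha', hb', h'⟩, hs', hp'⟩
    obtain ⟨d, a, b, ⟨ha, hb, h⟩, hs⟩ := c.2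
    refine ⟨d + d', a * a', b * b', ⟨ha.mul ha', hb.mul hb', ?_⟩, ?_, p.mul_mem_left _ hp'⟩
    · rw [map_mul, map_mul, ← h, ← h', smul_eq_mul]
      push_cast
      ring
    · rw [map_mul]
      exact mul_ne_zero hs hs'

theorem PI_rep {k F σ : Type} [Field k] [Field F] [Algebra k F] (X : σ → F) (s : σ → k)
    (p : Ideal (MvPolynomial σ k)) [p.IsPrime] (hI : ∀ f : MvPolynomial σ k, aeval X f = 0 → f ∈ p)
    (hs : ∀ b ∈ p, eval s b = 0) (h : Os X s) (hh : h ∈ PI X s p) (d : ℕ)
    (a b : MvPolynomial σ k) (hr : Rep X (h : F) d a b) : a ∈ p := by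
  obtain ⟨d', a', b', ⟨-, -, h'⟩, hs', hp'⟩ := hh
  obtain ⟨-, -, h2⟩ := hr
  have h1 : aeval X (a * b' - a' * b) = 0 := by
    rw [map_sub, map_mul, map_mul, ← h2, ← h']
    ring
  have h3 : a * b' ∈ p := by
    have h4 := p.add_mem (hI _ h1) (p.mul_mem_right b hp')
    rwa [sub_add_cancel] at h4
  rcases Ideal.IsPrime.mem_or_mem ‹_› h3 with h4 | h4
  · exact h4
  · exact absurd (hs _ h4) hs'

theorem pf_MPL : T_MPL := by
  intro k F σ _ _ _ _ _ _ X s hs0 hC ε hε L0 hL0 hL0s Q hIQ hQs H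
  have hinf : Infinite k := inferInstance
  have hev : ∀ b ∈ Lns s, eval s b = 0 := by
    intro b hb
    have := hb 1
    rwa [one_smul] at this
  have hL0X : aeval X L0 ≠ 0 := fun h => hL0s (hC.pt L0 h)
  refine ⟨⟨Lns_prime s, hQs⟩, ?_⟩
  rintro p ⟨hp, hQp⟩ hps
  have hI : ∀ f : MvPolynomial σ k, aeval X f = 0 → f ∈ p := fun f hf => hQp (hIQ f hf)
  have hsp : ∀ b ∈ p, eval s b = 0 := fun b hb => hev b (hps hb)
  have hrep := PI_rep X s p hI hsp
  have hPp : (PI X s p).IsPrime := by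
    refine ⟨?_, ?_⟩
    · intro h
      have h1 : (1 : Os X s) ∈ PI X s p := by rw [h]; trivial
      have h2 := hrep 1 h1 0 1 1 ⟨isHomogeneous_one _ _, isHomogeneous_one _ _, by simp⟩
      exact hp.ne_top ((Ideal.eq_top_iff_one _).2 h2)
    · intro z w hzw
      obtain ⟨d, a, b, ⟨ha, hb, h⟩, hs⟩ := z.2
      obtain ⟨d', a', b', ⟨ha', hb', h'⟩, hs'⟩ := w.2
      have h1 := hrep (z * w) hzw (d + d') (a * a') (b * b')
        ⟨ha.mul ha', hb.mul hb', by rw [map_mul, map_mul, ← h, ← h']; push_cast; ring⟩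
      rcases hp.mem_or_mem h1 with h2 | h2
      · exact Or.inl ⟨d, a, b, ⟨ha, hb, h⟩, hs, h2⟩
      · exact Or.inr ⟨d', a', b', ⟨ha', hb', h'⟩, hs', h2⟩
  have hker := H (PI X s p) hPp (by
    intro f d h hf hhom e
    refine ⟨d, f, L0 ^ d, ⟨hhom, ?_, ?_⟩, ?_, hQp hf⟩
    · have := hL0.pow d
      rwa [one_mul] at this
    · rw [map_pow]
      exact e
    · rw [map_pow]
      exact pow_ne_zero _ hL0s)
  intro f hf
  rw [← sum_homogeneousComponent f]
  refine p.sum_mem fun d _ => ?_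
  have h0 := Lns_hom s f hf d
  have hhom := homogeneousComponent_isHomogeneous d f
  have hL0d : (L0 ^ d).IsHomogeneous d := by
    have := hL0.pow d
    rwa [one_mul] at this
  have hz : aeval X (homogeneousComponent d f) / (aeval X L0) ^ d * aeval X (L0 ^ d) =
      aeval X (homogeneousComponent d f) := by
    rw [map_pow]
    exact div_mul_cancel₀ _ (pow_ne_zero _ hL0X)
  have hev0 : eval s (L0 ^ d) ≠ 0 := by
    rw [map_pow]
    exact pow_ne_zero _ hL0s
  obtain ⟨h, hh⟩ : ∃ h : Os X s, (h : F) = aeval X (homogeneousComponent d f) / (aeval X L0) ^ d :=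
    ⟨⟨_, ⟨d, _, L0 ^ d, ⟨hhom, hL0d, hz⟩, hev0⟩⟩, rfl⟩
  have hr : Rep X (h : F) d (homogeneousComponent d f) (L0 ^ d) := ⟨hhom, hL0d, by rw [hh]; exact hz⟩
  have h1 := hε h d _ _ hr
  rw [h0] at h1
  have h2 : ε h = 0 := (mul_eq_zero.1 h1).resolve_right hev0
  exact hrep h (hker h h2) d _ _ hr

end Pool.Agent.H77.S2
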