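import Pool.Agent.H84.S2.TgE
import Pool.Agent.H77.SF.PRZ

/-!
# MP_70ba79_ag, THEOREM S, part 3, row PRS: restriction to the field generated by the
coordinates
-/

set_option autoImplicit false

namespace Pool.Agent.H77.S2

open MvPolynomial SC
open Pool.Agent.H27.LV (ge deg poleOrder canDeg DegreeBound)
open Pool.Agent.H84.SM (cr dt dp)
open Pool.Agent.H84.SL (pd)
open Pool.Agent.H92.SF (Q2)
open Pool.Agent.H3.SF (Itg Bb BB Hm eu grd hes Sfc Crd Cnn Crf Prm nv Vl VQ evc FE E)
open Pool.Agent.H84.SF
open Pool.Agent.H3.S2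
open Pool.Agent.H84.S2
open Pool.Agent.H10.SM (der_adjoin der_alg alg_adjoin der_ne place_inj mem_range_of_alg)
open Pool.Agent.H77.SF (pole_ext exists_D0)

theorem pf_PRS : T_PRS := by
  intro k τ _ _ _ _ I G d SP sg hG hSP K _ _ _ htr D hD x S hx
  classical
  have hEXT := Pool.Agent.H16.SM.pf_EXT
  have : Nonempty τ := by
    obtain ⟨j, _⟩ := hx.one
    exact ⟨j⟩
  by_cases hc : ∀ i, x i ∈ Set.range (algebraMap k K)
  · exact Or.inl hc
  right
  push Not at hc
  obtain ⟨i0, hi0⟩ := hc
  have hxt : Transcendental k (x i0) := fun ha => hi0 (mem_range_of_alg ha)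
  have hμ : D (x i0) ≠ 0 := der_ne htr (x i0) hxt D hD
  let F := IntermediateField.adjoin k (Set.range x)
  have hxF : ∀ i, x i ∈ F := fun i => IntermediateField.subset_adjoin _ _ ⟨i, rfl⟩
  obtain ⟨D0, hD0⟩ := exists_D0 htr D x i0 hxt hμ F rfl
  have hess : Algebra.EssFiniteType k F := by
    rw [IntermediateField.essFiniteType_iff]
    exact ⟨(Set.finite_range x).toFinset, by rw [Set.Finite.coe_toFinset]⟩
  let x0 : τ → F := fun i => ⟨x i, hxF i⟩
  have hιx : ∀ i, F.val (x0 i) = x i := fun i => rfl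
  have htrF : Algebra.trdeg k F = 1 := by
    apply le_antisymm
    · rw [← htr]
      exact trdeg_le_of_injective F.val F.val.injective
    · rw [Cardinal.one_le_iff_ne_zero, trdeg_ne_zero_iff]
      refine ⟨⟨⟨x i0, hxF i0⟩, ?_⟩⟩
      intro halg
      exact hxt (halg.algebraMap (A := K))
  have hval : ∀ P : MvPolynomial (τ) k, F.val (aeval x0 P) = aeval x P := by
    intro P
    rw [← AlgHom.comp_apply, MvPolynomial.comp_aeval]
    rfl
  -- places
  have hE := hEXT k F K F.val htrF htr
  choose v e he hve using hE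
  have hpole : ∀ w, poleOrder (v w) x = e w * poleOrder w x0 := fun w =>
    pole_ext F.val w (v w) (e w) (hve w) x0 x hιx
  let T : Set (DV k F) := {w | ¬ (w.ord (aeval x0 G) + d * poleOrder w x0 ≤
    w.ord (aeval x0 SP) + sg * poleOrder w x0)}
  have hmem : ∀ w ∈ T, v w ∈ S := by
    intro w hw
    by_contra hvS
    apply hw
    have h1 := hx.off (v w) hvS
    rw [← hval, ← hval, hve, hve, hpole] at h1
    have h2 : (0 : ℤ) < (e w : ℤ) := by
      have := he w
      omega
    apply le_of_mul_le_mul_left _ h2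
    refine le_trans (le_of_eq ?_) (h1.trans (le_of_eq ?_)) <;>
    · push_cast
      ring
  have hinj : Function.Injective v := by
    intro w w' hww
    refine place_inj F.val w w' (v w) (e w) (e w') (he w) (he w') (hve w) ?_
    rw [hww]
    exact hve w'
  have hTfin : T.Finite := Set.Finite.of_injOn (f := v) (t := (S : Set (DV k K)))
    (fun w hw => hmem w hw) hinj.injOn S.finite_toSet
  refine ⟨F, inferInstance, inferInstance, hess, F.val, x0, D0, D (x i0), hTfin.toFinset,
    htrF, ?_, hιx, ?_, hμ, hD0, ⟨?_, ?_, ?_, ?_, ?_⟩, ?_⟩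
  · intro h0
    have h1 := hD0 (x0 i0)
    rw [h0] at h1
    apply hμ
    have h2 : ((0 : Derivation k F F) (x0 i0) : K) = 0 := rfl
    rw [h2, mul_zero] at h1
    exact h1
  · apply IntermediateField.lift_injective F
    rw [IntermediateField.lift_adjoin, IntermediateField.lift_top, ← Set.range_comp]
    rfl
  · intro f hf
    have h1 := hval f
    rw [hx.on f hf] at h1
    exact Subtype.ext h1
  · obtain ⟨j, hj⟩ := hx.one
    exact ⟨j, Subtype.ext hj⟩
  · intro h0
    apply hx.ne
    rw [← hval, h0, map_zero]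
  · intro h0
    apply hx.Sne
    rw [← hval, h0, map_zero]
  · intro w hw
    by_contra h1
    exact hw (hTfin.mem_toFinset.2 h1)
  · refine Finset.card_le_card_of_injOn v ?_ hinj.injOn
    intro w hw
    exact hmem w (hTfin.mem_toFinset.1 hw)

end Pool.Agent.H77.S2
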